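import Mathlib

/-!
# Fair division: definitions for MP_f6d244_lc.BoundedSpread
-/

set_option autoImplicit false

open Finset

namespace Pool.Agent.W2helper86.FD

variable {ι M : Type}

/-- A normalised, monotone and subadditive valuation. (It is nonnegative, being monotone and
normalised.) -/
structure IsValuation [DecidableEq M] (u : Finset M → ℝ) : Prop where
  empty : u ∅ = 0
  mono : ∀ S T, S ⊆ T → u S ≤ u T
  subadd : ∀ S T, u (S ∪ T) ≤ u S + u T

/-- An allocation: an ordered partition of all the goods; bundles may be empty. -/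
def IsAlloc (A : ι → Finset M) : Prop :=
  (∀ i j, i ≠ j → Disjoint (A i) (A j)) ∧ ∀ g, ∃ i, g ∈ A i

/-- EF1: if agent `i` prefers the bundle of agent `j` to her own one, then she does not prefer it any
more after the removal of some good. -/
def EF1 [DecidableEq M] (v : ι → Finset M → ℝ) (A : ι → Finset M) : Prop :=
  ∀ i j, v i (A i) < v i (A j) → ∃ g ∈ A j, v i (A j \ {g}) ≤ v i (A i)

/-- `α`-PO: there is no allocation `B` with `α * v i (B i) > v i (A i)` for every agent `i`. -/
def IsPO (α : ℝ) (v : ι → Finset M → ℝ) (A : ι → Finset M) : Prop :=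
  ¬ ∃ B : ι → Finset M, IsAlloc B ∧ ∀ i, v i (A i) < α * v i (B i)

/-- Every instance with `n` agents in which all agents except at most one (`z`) have spread at most
`ρ`, i.e. the value of the set of all goods is at most `ρ` times the value of any single good,
admits an allocation which is EF1 and `α`-PO. -/
def Good (n : ℕ) (ρ α : ℝ) : Prop :=
  ∀ (M : Type) [Fintype M] [DecidableEq M] (v : Fin n → Finset M → ℝ) (z : Fin n),
    (∀ i, IsValuation (v i)) → (∀ i, i ≠ z → ∀ g, v i univ ≤ ρ * v i {g}) →
      ∃ A : Fin n → Finset M, IsAlloc A ∧ EF1 v A ∧ IsPO α v A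

end Pool.Agent.W2helper86.FD
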