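import Pool.Agent.W2helper86.FD.Neg

/-!
# Fair division: the tables for two and for three agents
-/

set_option autoImplicit false

open Finset

namespace Pool.Agent.W2helper86.FD

/-- the tables for three agents -/
def N3 : Fin 3 → ℕ := ![4483644043164206270234890650873650994338033479532790679616,
  4483644095869631367225962551101522113888413684796209562176,
  4483644043255572423302657559105676737743216143737374935104]

/-- the tables for two agents -/
def N2 : Fin 2 → ℕ := ![4480572369377075948216893717552469466637475621988772873216,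
  4482109728510275748955672300376445209552875234474082697216]

theorem mono3 : ∀ i, MonoTable (N3 i) := by decide +kernel

theorem mono2 : ∀ i, MonoTable (N2 i) := by decide +kernel

theorem zero3 : ∀ i, lev (N3 i) 0 = 0 := by decide +kernel

theorem zero2 : ∀ i, lev (N2 i) 0 = 0 := by decide +kernel

/-- the finite check for three agents -/
def chk3 (a b c a' b' c' a'' b'' c'' : ℕ) : Bool :=
  strong (N3 0) (lev (N3 0) (cod a b c)) a' b' c' ||
  strong (N3 0) (lev (N3 0) (cod a b c)) a'' b'' c'' ||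
  strong (N3 1) (lev (N3 1) (cod a' b' c')) a b c ||
  strong (N3 1) (lev (N3 1) (cod a' b' c')) a'' b'' c'' ||
  strong (N3 2) (lev (N3 2) (cod a'' b'' c'')) a b c ||
  strong (N3 2) (lev (N3 2) (cod a'' b'' c'')) a' b' c' ||
  (decide (lev (N3 0) (cod a b c) ≤ 3) && decide (lev (N3 1) (cod a' b' c') ≤ 3) &&
    decide (lev (N3 2) (cod a'' b'' c'') ≤ 3) &&
    (decide (lev (N3 0) (cod a b c) ≤ 1) || decide (lev (N3 1) (cod a' b' c') ≤ 1) ||
      decide (lev (N3 2) (cod a'' b'' c'') ≤ 1)))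

theorem chk3_all : ∀ a a' a'' : Fin 4, (a : ℕ) + a' + a'' ≤ 3 →
    ∀ b b' b'' : Fin 4, (b : ℕ) + b' + b'' ≤ 3 → ∀ c c' c'' : Fin 4, (c : ℕ) + c' + c'' ≤ 3 →
    chk3 a b c a' b' c' a'' b'' c'' = true := by decide +kernel

/-- the finite check for two agents -/
def chk2 (a b c a' b' c' : ℕ) : Bool :=
  strong (N2 0) (lev (N2 0) (cod a b c)) a' b' c' ||
  strong (N2 1) (lev (N2 1) (cod a' b' c')) a b c ||
  (decide (lev (N2 0) (cod a b c) ≤ 3) && decide (lev (N2 1) (cod a' b' c') ≤ 3) &&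
    (decide (lev (N2 0) (cod a b c) ≤ 1) || decide (lev (N2 1) (cod a' b' c') ≤ 1)))

theorem chk2_all : ∀ a a' : Fin 4, (a : ℕ) + a' ≤ 3 → ∀ b b' : Fin 4, (b : ℕ) + b' ≤ 3 →
    ∀ c c' : Fin 4, (c : ℕ) + c' ≤ 3 → chk2 a b c a' b' c' = true := by
  decide +kernel

/-- better allocations for three agents; agent `i` is the one with the low level -/
def o3 : Fin 3 → Good9 → Fin 3
  | 0 => fun g => ![2, 0, 1] g.1
  | 1 => fun g => if g.1 = 2 then 2 else ![0, 0, 1] g.2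
  | 2 => fun g => ![0, 2, 1] g.1

/-- better allocations for two agents -/
def o2 : Fin 2 → Good9 → Fin 2
  | 0 => fun g => ![0, 1, 1] g.1
  | 1 => fun g => if g.1 = 0 then ![0, 0, 1] g.2 else if g.1 = 1 then 1 else 0

theorem o3_ne : ∀ i j, (ofOwner (o3 i) j).Nonempty := by decide +kernel

theorem o3_low : ∀ i, 2 ≤ level (N3 i) (ofOwner (o3 i) i) := by decide +kernel

theorem o3_high : ∀ i j, j ≠ i → 4 ≤ level (N3 j) (ofOwner (o3 i) j) := by decide +kernel

theorem o2_ne : ∀ i j, (ofOwner (o2 i) j).Nonempty := by decide +kernel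

theorem o2_low : ∀ i, 2 ≤ level (N2 i) (ofOwner (o2 i) i) := by decide +kernel

theorem o2_high : ∀ i j, j ≠ i → 4 ≤ level (N2 j) (ofOwner (o2 i) j) := by decide +kernel

theorem exists_e {s α : ℝ} (hs : 1 < s) (hα : 1 < α * s) : ∃ e : ℝ, 1 < e ∧ e ^ 2 < s ∧
    e ^ 2 < α * s := by
  have hm : 1 < min s (α * s) := lt_min hs hα
  refine ⟨√((1 + min s (α * s)) / 2), ?_, ?_, ?_⟩
  · rw [Real.lt_sqrt (by norm_num)]
    linarith
  · rw [Real.sq_sqrt (by linarith)]
    linarith [min_le_left s (α * s)]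
  · rw [Real.sq_sqrt (by linarith)]
    linarith [min_le_right s (α * s)]

theorem hard3 {s α : ℝ} (hs : 1 < s) (hα : 1 < α * s) : Hard s α (Fin 3) := by
  obtain ⟨e, he, hes, hea⟩ := exists_e hs hα
  refine hard_of he hes hea mono3 zero3 o3 o3_ne o3_low o3_high ?_
  intro A hA hst
  have s0 := cnt_disjoint hA 0
  have s1 := cnt_disjoint hA 1
  have s2 := cnt_disjoint hA 2
  rw [Fin.sum_univ_three] at s0 s1 s2
  have hc := chk3_all ⟨_, cnt_lt (A 0) 0⟩ ⟨_, cnt_lt (A 1) 0⟩ ⟨_, cnt_lt (A 2) 0⟩ s0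
    ⟨_, cnt_lt (A 0) 1⟩ ⟨_, cnt_lt (A 1) 1⟩ ⟨_, cnt_lt (A 2) 1⟩ s1
    ⟨_, cnt_lt (A 0) 2⟩ ⟨_, cnt_lt (A 1) 2⟩ ⟨_, cnt_lt (A 2) 2⟩ s2
  simp only at hc
  have t01 := hst 0 1 (by decide)
  have t02 := hst 0 2 (by decide)
  have t10 := hst 1 0 (by decide)
  have t12 := hst 1 2 (by decide)
  have t20 := hst 2 0 (by decide)
  have t21 := hst 2 1 (by decide)
  unfold level at *
  simp only [chk3, t01, t02, t10, t12, t20, t21, Bool.or_eq_true,
    Bool.and_eq_true, decide_eq_true_eq, Bool.false_eq_true, false_or] at hc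
  obtain ⟨⟨⟨l0, l1⟩, l2⟩, hlow⟩ := hc
  refine ⟨fun i => ?_, ?_⟩
  · fin_cases i
    · exact l0
    · exact l1
    · exact l2
  · rcases hlow with (h | h) | h
    · exact ⟨0, h⟩
    · exact ⟨1, h⟩
    · exact ⟨2, h⟩

theorem hard2 {s α : ℝ} (hs : 1 < s) (hα : 1 < α * s) : Hard s α (Fin 2) := by
  obtain ⟨e, he, hes, hea⟩ := exists_e hs hα
  refine hard_of he hes hea mono2 zero2 o2 o2_ne o2_low o2_high ?_
  intro A hA hst
  have s0 := cnt_disjoint hA 0
  have s1 := cnt_disjoint hA 1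
  have s2 := cnt_disjoint hA 2
  rw [Fin.sum_univ_two] at s0 s1 s2
  have hc := chk2_all ⟨_, cnt_lt (A 0) 0⟩ ⟨_, cnt_lt (A 1) 0⟩ s0
    ⟨_, cnt_lt (A 0) 1⟩ ⟨_, cnt_lt (A 1) 1⟩ s1 ⟨_, cnt_lt (A 0) 2⟩ ⟨_, cnt_lt (A 1) 2⟩ s2
  simp only at hc
  have t01 := hst 0 1 (by decide)
  have t10 := hst 1 0 (by decide)
  unfold level at *
  simp only [chk2, t01, t10, Bool.or_eq_true,
    Bool.and_eq_true, decide_eq_true_eq, Bool.false_eq_true, false_or] at hc
  obtain ⟨⟨l0, l1⟩, hlow⟩ := hc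
  refine ⟨fun i => ?_, ?_⟩
  · fin_cases i
    · exact l0
    · exact l1
  · rcases hlow with h | h
    · exact ⟨0, h⟩
    · exact ⟨1, h⟩

end Pool.Agent.W2helper86.FD
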