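import Pool.Agent.W2helper86.FD.Defs

/-!
# Fair division: instances with nine goods of three types and values between `1` and `ρ ≤ 2`

Three types of goods, three goods of each type. The values depend only on the numbers `a, b, c` of
goods of the three types, by a table of levels `0, …, 5` for each agent, and a function `val` from
levels to real numbers.
-/

set_option autoImplicit false

open Finset

namespace Pool.Agent.W2helper86.FD

/-- the goods: type and copy -/
abbrev Good9 : Type := Fin 3 × Fin 3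

/-- position in the table -/
def cod (a b c : ℕ) : ℕ := a + 4 * b + 16 * c

/-- entry of the table `N` -/
def lev (N p : ℕ) : ℕ := N / 8 ^ p % 8

/-- number of goods of type `t` -/
def cnt (S : Finset Good9) (t : Fin 3) : ℕ := (S.filter (fun g => g.1 = t)).card

/-- level of a set of goods -/
def level (N : ℕ) (S : Finset Good9) : ℕ := lev N (cod (cnt S 0) (cnt S 1) (cnt S 2))

/-- the values of the levels -/
noncomputable def val (s e : ℝ) : ℕ → ℝ
  | 0 => 1
  | 1 => e
  | 2 => s
  | 3 => s * e
  | 4 => s ^ 2 / e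
  | _ => s ^ 2

/-- the valuation given by a table -/
noncomputable def tval (s e : ℝ) (N : ℕ) (S : Finset Good9) : ℝ :=
  if S = ∅ then 0 else val s e (level N S)

/-- the levels are at most `5` and grow with the set -/
def MonoTable (N : ℕ) : Prop :=
  ∀ a b c : Fin 4, lev N (cod a b c) ≤ 5 ∧
    ∀ a' b' c' : Fin 4, a ≤ a' → b ≤ b' → c ≤ c' → 0 < (a : ℕ) + b + c →
      lev N (cod a b c) ≤ lev N (cod a' b' c')

instance (N : ℕ) : Decidable (MonoTable N) := by unfold MonoTable; infer_instance

theorem val_lt {s e : ℝ} (he : 1 < e) (hs : e ^ 2 < s) {k l : ℕ} (hkl : k < l) (hl : l ≤ 5) :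
    val s e k < val s e l := by
  have he0 : 0 < e := by linarith
  have h1 : e < s := by nlinarith
  have hs0 : 0 < s := by linarith
  have h2 : s < s * e := by nlinarith
  have h3 : s * e < s ^ 2 / e := by
    rw [lt_div_iff₀ he0]; nlinarith
  have h4 : s ^ 2 / e < s ^ 2 := by
    rw [div_lt_iff₀ he0]; nlinarith [sq_nonneg s, mul_pos hs0 hs0]
  interval_cases l <;> interval_cases k <;> simp only [val] <;> linarith

theorem val_le {s e : ℝ} (he : 1 < e) (hs : e ^ 2 < s) {k l : ℕ} (hkl : k ≤ l) (hl : l ≤ 5) :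
    val s e k ≤ val s e l := by
  rcases hkl.lt_or_eq with h | h
  · exact (val_lt he hs h hl).le
  · rw [h]

theorem one_le_val {s e : ℝ} (he : 1 < e) (hs : e ^ 2 < s) {k : ℕ} (hk : k ≤ 5) :
    1 ≤ val s e k := val_le he hs (Nat.zero_le k) hk

theorem val_le_sq {s e : ℝ} (he : 1 < e) (hs : e ^ 2 < s) {k : ℕ} (hk : k ≤ 5) :
    val s e k ≤ s ^ 2 := val_le he hs hk le_rfl

theorem cnt_lt (S : Finset Good9) (t : Fin 3) : cnt S t < 4 := by
  have h1 : cnt S t ≤ cnt univ t := card_le_card (filter_subset_filter _ (subset_univ S))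
  have h2 : ∀ t, cnt univ t = 3 := by decide
  have := h2 t
  omega

theorem cnt_mono {S T : Finset Good9} (h : S ⊆ T) (t : Fin 3) : cnt S t ≤ cnt T t :=
  card_le_card (filter_subset_filter _ h)

theorem cnt_sum (S : Finset Good9) : cnt S 0 + cnt S 1 + cnt S 2 = S.card := by
  have h := Finset.card_eq_sum_card_fiberwise (f := fun g : Good9 => g.1) (s := S)
    (t := (univ : Finset (Fin 3))) (fun x _ => by simp)
  rw [h, Fin.sum_univ_three]
  rfl

theorem level_le {N : ℕ} (hN : MonoTable N) (S : Finset Good9) : level N S ≤ 5 :=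
  (hN ⟨_, cnt_lt S 0⟩ ⟨_, cnt_lt S 1⟩ ⟨_, cnt_lt S 2⟩).1

theorem level_mono {N : ℕ} (hN : MonoTable N) {S T : Finset Good9} (h : S ⊆ T)
    (hS : S.Nonempty) : level N S ≤ level N T := by
  refine (hN ⟨_, cnt_lt S 0⟩ ⟨_, cnt_lt S 1⟩ ⟨_, cnt_lt S 2⟩).2 ⟨_, cnt_lt T 0⟩ ⟨_, cnt_lt T 1⟩
    ⟨_, cnt_lt T 2⟩ (cnt_mono h 0) (cnt_mono h 1) (cnt_mono h 2) ?_
  show 0 < cnt S 0 + cnt S 1 + cnt S 2
  rw [cnt_sum]
  exact hS.card_pos

theorem tval_of_ne {s e : ℝ} {N : ℕ} {S : Finset Good9} (hS : S.Nonempty) :
    tval s e N S = val s e (level N S) := by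
  unfold tval
  rw [if_neg hS.ne_empty]

theorem one_le_tval {s e : ℝ} (he : 1 < e) (hs : e ^ 2 < s) {N : ℕ} (hN : MonoTable N)
    {S : Finset Good9} (hS : S.Nonempty) : 1 ≤ tval s e N S := by
  rw [tval_of_ne hS]
  exact one_le_val he hs (level_le hN S)

theorem tval_le {s e : ℝ} (he : 1 < e) (hs : e ^ 2 < s) {N : ℕ} (hN : MonoTable N)
    (S : Finset Good9) : tval s e N S ≤ s ^ 2 := by
  unfold tval
  split_ifs
  · positivity
  · exact val_le_sq he hs (level_le hN S)

/-- an agent with level `l` strongly envies the bundle with `a, b, c` goods of the three types -/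
def strong (N l a b c : ℕ) : Bool :=
  decide (2 ≤ a + b + c) && (decide (a = 0) || decide (l < lev N (cod (a - 1) b c))) &&
    (decide (b = 0) || decide (l < lev N (cod a (b - 1) c))) &&
    (decide (c = 0) || decide (l < lev N (cod a b (c - 1))))

theorem cnt_erase {S : Finset Good9} {g : Good9} (hg : g ∈ S) (t : Fin 3) :
    cnt (S \ {g}) t = if g.1 = t then cnt S t - 1 else cnt S t := by
  unfold cnt
  rw [sdiff_singleton_eq_erase, filter_erase]
  split_ifs with h
  · rw [card_erase_of_mem (by simp [hg, h])]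
  · rw [erase_eq_of_notMem (by simp [h])]

theorem max_tval {s e : ℝ} (he : 1 < e) (hs : e ^ 2 < s) {N : ℕ} (hN : MonoTable N)
    (h0 : lev N 0 = 0) (S : Finset Good9) : max (tval s e N S) 1 = val s e (level N S) := by
  rcases S.eq_empty_or_nonempty with h | h
  · have h1 : level N S = 0 := by
      rw [h]
      unfold level cod cnt
      simpa using h0
    rw [h1, h]
    simp [tval, val]
  · rw [max_eq_left (one_le_tval he hs hN h), tval_of_ne h]

/-- Strong envy is excluded by relaxed EF1. -/
theorem not_strong {n : ℕ} {s e : ℝ} (he : 1 < e) (hs : e ^ 2 < s) {N : Fin n → ℕ}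
    (hN : ∀ i, MonoTable (N i)) (h0 : ∀ i, lev (N i) 0 = 0) {A : Fin n → Finset Good9}
    (hE : ∀ i j, (A j).Nonempty → ∃ g ∈ A j, tval s e (N i) (A j \ {g}) ≤
      max (tval s e (N i) (A i)) 1) (i j : Fin n) :
    strong (N i) (level (N i) (A i)) (cnt (A j) 0) (cnt (A j) 1) (cnt (A j) 2) = false := by
  rw [Bool.eq_false_iff]
  intro hst
  simp only [strong, Bool.and_eq_true, Bool.or_eq_true, decide_eq_true_eq] at hst
  obtain ⟨⟨⟨h2, ha⟩, hb⟩, hc⟩ := hst
  rw [cnt_sum] at h2
  obtain ⟨g, hg, hle⟩ := hE i j (card_pos.mp (by omega))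
  have hne' : (A j \ {g}).Nonempty := by
    rw [← card_pos, sdiff_singleton_eq_erase, card_erase_of_mem hg]
    omega
  rw [max_tval he hs (hN i) (h0 i), tval_of_ne hne'] at hle
  refine absurd hle (not_le.mpr (val_lt he hs ?_ (level_le (hN i) _)))
  have hpos : 1 ≤ cnt (A j) g.1 := by
    unfold cnt
    rw [Nat.one_le_iff_ne_zero, Finset.card_ne_zero]
    exact ⟨g, by simp [hg]⟩
  unfold level at *
  rw [cnt_erase hg, cnt_erase hg, cnt_erase hg]
  obtain ⟨t, r⟩ := g
  simp only at hpos ⊢
  fin_cases t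
  · simp only [Fin.zero_eta, Fin.isValue, if_true] at hpos ⊢
    have h01 : ((0 : Fin 3) = 1) = False := by decide
    have h02 : ((0 : Fin 3) = 2) = False := by decide
    simp only [h01, h02, if_false]
    rcases ha with h | h
    · omega
    · exact h
  · have h10 : ((1 : Fin 3) = 0) = False := by decide
    have h12 : ((1 : Fin 3) = 2) = False := by decide
    simp only [Fin.mk_one, Fin.isValue, if_true, h10, h12, if_false] at hpos ⊢
    rcases hb with h | h
    · omega
    · exact h
  · have h20 : ((2 : Fin 3) = 0) = False := by decide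
    have h21 : ((2 : Fin 3) = 1) = False := by decide
    simp only [Fin.reduceFinMk, Fin.isValue, if_true, h20, h21, if_false] at hpos ⊢
    rcases hc with h | h
    · omega
    · exact h

theorem cnt_disjoint {n : ℕ} {A : Fin n → Finset Good9}
    (hA : ∀ i j, i ≠ j → Disjoint (A i) (A j)) (t : Fin 3) : ∑ i, cnt (A i) t ≤ 3 := by
  unfold cnt
  rw [← card_biUnion]
  · have h3 : ∀ t : Fin 3, ((univ : Finset Good9).filter (fun g => g.1 = t)).card = 3 := by decide
    refine le_trans (card_le_card ?_) (h3 t).le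
    intro g hg
    simp only [mem_biUnion, mem_univ, true_and, mem_filter] at hg ⊢
    exact hg.choose_spec.2
  · intro i _ j _ hij
    exact disjoint_filter_filter (hA i j hij)

/-- The allocation given by an owner for each good. -/
def ofOwner {n : ℕ} (o : Good9 → Fin n) (i : Fin n) : Finset Good9 := univ.filter (fun g => o g = i)

theorem ofOwner_alloc {n : ℕ} (o : Good9 → Fin n) : IsAlloc (ofOwner o) := by
  refine ⟨fun i j hij => ?_, fun g => ⟨o g, by simp [ofOwner]⟩⟩
  rw [disjoint_left]
  intro g hi hj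
  simp only [ofOwner, mem_filter, mem_univ, true_and] at hi hj
  exact hij (hi.symm.trans hj)

/-- A hard instance for the agents `I`: all values of nonempty sets are between `1` and `s ^ 2`, and
for every partial allocation which is EF1 in a relaxed sense there is an allocation which is
better for each agent by more than the factor `1 / α`. -/
def Hard (s α : ℝ) (I : Type) : Prop :=
  ∃ (M : Type) (_ : Fintype M) (_ : DecidableEq M) (v : I → Finset M → ℝ),
    (∀ i, v i ∅ = 0) ∧ (∀ i S T, S ⊆ T → v i S ≤ v i T) ∧ (∀ i S, S.Nonempty → 1 ≤ v i S) ∧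
    (∀ i S, v i S ≤ s ^ 2) ∧
    ∀ A : I → Finset M, (∀ i j, i ≠ j → Disjoint (A i) (A j)) →
      (∀ i j, (A j).Nonempty → ∃ g ∈ A j, v i (A j \ {g}) ≤ max (v i (A i)) 1) →
      ∃ B : I → Finset M, IsAlloc B ∧ ∀ i, max (v i (A i)) 1 < α * v i (B i)

/-- If every partial allocation which is EF1 in a relaxed sense has levels at most `3`, with a level
at most `1`, and if for each agent `i` there is an allocation with level at least `2` for `i` and at
least `4` for the others, then the instance is hard. -/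
theorem hard_of {n : ℕ} {s e α : ℝ} (he : 1 < e) (hs : e ^ 2 < s) (hα : e ^ 2 < α * s)
    {N : Fin n → ℕ} (hN : ∀ i, MonoTable (N i)) (h0 : ∀ i, lev (N i) 0 = 0)
    (o : Fin n → Good9 → Fin n) (ho : ∀ i j, (ofOwner (o i) j).Nonempty)
    (ho2 : ∀ i, 2 ≤ level (N i) (ofOwner (o i) i))
    (ho4 : ∀ i j, j ≠ i → 4 ≤ level (N j) (ofOwner (o i) j))
    (hchk : ∀ A : Fin n → Finset Good9, (∀ i j, i ≠ j → Disjoint (A i) (A j)) →
      (∀ i j, i ≠ j → strong (N i) (level (N i) (A i)) (cnt (A j) 0) (cnt (A j) 1)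
        (cnt (A j) 2) = false) →
      (∀ i, level (N i) (A i) ≤ 3) ∧ ∃ i, level (N i) (A i) ≤ 1) : Hard s α (Fin n) := by
  have he0 : 0 < e := by linarith
  have hs0 : 0 < s := by nlinarith
  have hα0 : 0 < α := by
    by_contra h
    have : α * s ≤ 0 := mul_nonpos_of_nonpos_of_nonneg (not_lt.mp h) hs0.le
    nlinarith
  have hnn : ∀ i S, 0 ≤ tval s e (N i) S := by
    intro i S
    rcases S.eq_empty_or_nonempty with h | h
    · rw [h]; simp [tval]
    · exact zero_le_one.trans (one_le_tval he hs (hN i) h)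
  refine ⟨Good9, inferInstance, inferInstance, fun i => tval s e (N i), fun i => by simp [tval],
    ?_, fun i S hS => one_le_tval he hs (hN i) hS, fun i S => tval_le he hs (hN i) S, ?_⟩
  · intro i S T hST
    rcases S.eq_empty_or_nonempty with h | h
    · rw [h]
      have : tval s e (N i) (∅ : Finset Good9) = 0 := by simp [tval]
      show tval s e (N i) ∅ ≤ tval s e (N i) T
      rw [this]
      exact hnn i T
    · show tval s e (N i) S ≤ tval s e (N i) T
      rw [tval_of_ne h, tval_of_ne (h.mono hST)]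
      exact val_le he hs (level_mono (hN i) hST h) (level_le (hN i) T)
  · intro A hA hE
    obtain ⟨h3, i, h1⟩ := hchk A hA (fun i j _ => not_strong he hs hN h0 hE i j)
    refine ⟨ofOwner (o i), ofOwner_alloc _, fun j => ?_⟩
    show max (tval s e (N j) (A j)) 1 < α * tval s e (N j) (ofOwner (o i) j)
    rw [max_tval he hs (hN j) (h0 j), tval_of_ne (ho i j)]
    by_cases hj : j = i
    · subst hj
      have a1 : val s e (level (N j) (A j)) ≤ e := val_le he hs h1 (by norm_num)
      have a2 : s ≤ val s e (level (N j) (ofOwner (o j) j)) :=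
        val_le he hs (ho2 j) (level_le (hN j) _)
      have a3 : α * s ≤ α * val s e (level (N j) (ofOwner (o j) j)) :=
        mul_le_mul_of_nonneg_left a2 hα0.le
      nlinarith
    · have a1 : val s e (level (N j) (A j)) ≤ s * e := val_le he hs (h3 j) (by norm_num)
      have a2 : s ^ 2 / e ≤ val s e (level (N j) (ofOwner (o i) j)) :=
        val_le he hs (ho4 i j hj) (level_le (hN j) _)
      have a3 : α * (s ^ 2 / e) ≤ α * val s e (level (N j) (ofOwner (o i) j)) :=
        mul_le_mul_of_nonneg_left a2 hα0.le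
      have a4 : s * e < α * (s ^ 2 / e) := by
        rw [← mul_div_assoc, lt_div_iff₀ he0]
        nlinarith
      linarith

end Pool.Agent.W2helper86.FD
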