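import Pool.Agent.W2helper86.FD.Defs

/-!
# Fair division: one agent keeps her value, and instances of bounded spread
-/

set_option autoImplicit false

open Finset

namespace Pool.Agent.W2helper86.FD

variable {n : ℕ} {M : Type} [Fintype M] [DecidableEq M]

theorem exists_periodic {α : Type} [Finite α] (f : α → α) (x : α) :
    ∃ y, y ∈ Function.periodicPts f := by
  obtain ⟨a, b, hab, h⟩ := Finite.exists_ne_map_eq_of_infinite (fun m : ℕ => f^[m] x)
  wlog hlt : a < b generalizing a b
  · exact this b a hab.symm h.symm (lt_of_le_of_ne (not_lt.mp hlt) hab.symm)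
  refine ⟨f^[a] x, b - a, Nat.sub_pos_of_lt hlt, ?_⟩
  unfold Function.IsPeriodicPt Function.IsFixedPt
  rw [← Function.iterate_add_apply, Nat.sub_add_cancel hlt.le]
  exact h.symm

omit [Fintype M] [DecidableEq M] in
/-- After a permutation of the bundles which makes nobody worse off, some agent is not envied. -/
theorem exists_source (hn : 0 < n) (v : Fin n → Finset M → ℝ) (Y : Fin n → Finset M) :
    ∃ τ : Equiv.Perm (Fin n), (∀ k, v k (Y k) ≤ v k (Y (τ k))) ∧
      ∃ s, ∀ k, v k (Y (τ s)) ≤ v k (Y (τ k)) := by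
  classical
  let T : Finset (Equiv.Perm (Fin n)) := univ.filter (fun τ => ∀ k, v k (Y k) ≤ v k (Y (τ k)))
  have hne : T.Nonempty := ⟨1, by simp [T]⟩
  obtain ⟨τ, hτ, hmax⟩ := T.exists_max_image (fun τ => ∑ k, v k (Y (τ k))) hne
  have hτ' : ∀ k, v k (Y k) ≤ v k (Y (τ k)) := (mem_filter.mp hτ).2
  refine ⟨τ, hτ', ?_⟩
  by_contra hcon
  push Not at hcon
  choose f hf using hcon
  obtain ⟨y, hy⟩ := exists_periodic f ⟨0, hn⟩
  let e := (Function.bijOn_periodicPts (f := f)).equiv
  let σ : Equiv.Perm (Fin n) := Equiv.Perm.ofSubtype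
    (p := fun x => x ∈ Function.periodicPts f) e.symm
  have hσ1 : ∀ k, k ∈ Function.periodicPts f → v k (Y (τ k)) < v k (Y (τ (σ k))) := by
    intro k hk
    have h1 : σ k = (e.symm ⟨k, hk⟩ : Fin n) := Equiv.Perm.ofSubtype_apply_of_mem _ hk
    have h2 : f (e.symm ⟨k, hk⟩ : Fin n) = k := by
      have h3 : e (e.symm ⟨k, hk⟩) = ⟨k, hk⟩ := e.apply_symm_apply _
      exact congrArg Subtype.val h3
    have h4 := hf (e.symm ⟨k, hk⟩ : Fin n)
    rw [h2] at h4
    rw [h1]
    exact h4
  have hσ2 : ∀ k, k ∉ Function.periodicPts f → σ k = k := fun k hk =>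
    Equiv.Perm.ofSubtype_apply_of_not_mem _ hk
  have hall : ∀ k, v k (Y (τ k)) ≤ v k (Y (τ (σ k))) := by
    intro k
    by_cases hk : k ∈ Function.periodicPts f
    · exact (hσ1 k hk).le
    · rw [hσ2 k hk]
  have hmem : τ * σ ∈ T := by
    simp only [T, mem_filter, mem_univ, true_and]
    intro k
    exact (hτ' k).trans (hall k)
  have hle := hmax _ hmem
  have hlt : ∑ k, v k (Y (τ k)) < ∑ k, v k (Y ((τ * σ) k)) :=
    Finset.sum_lt_sum (fun k _ => hall k) ⟨y, mem_univ _, hσ1 y hy⟩
  exact absurd hle (not_le.mpr hlt)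

omit [Fintype M] in
theorem ef1_perm {v : Fin n → Finset M → ℝ} {Y : Fin n → Finset M} (hE : EF1 v Y)
    {τ : Equiv.Perm (Fin n)} (hτ : ∀ k, v k (Y k) ≤ v k (Y (τ k))) :
    EF1 v (fun k => Y (τ k)) := by
  intro i j h
  obtain ⟨g, hg, hle⟩ := hE i (τ j) ((hτ i).trans_lt h)
  exact ⟨g, hg, hle.trans (hτ i)⟩

omit [Fintype M] in
theorem ef1_add {v : Fin n → Finset M → ℝ} (hm : ∀ i S T, S ⊆ T → v i S ≤ v i T)
    {Y : Fin n → Finset M} (hE : EF1 v Y) {s : Fin n} (hs : ∀ k, v k (Y s) ≤ v k (Y k))
    {g : M} (hg : g ∉ Y s) : EF1 v (Function.update Y s (insert g (Y s))) := by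
  have hup : ∀ i, v i (Y i) ≤ v i (Function.update Y s (insert g (Y s)) i) := by
    intro i
    by_cases his : i = s
    · subst his
      rw [Function.update_self]
      exact hm _ _ _ (subset_insert _ _)
    · rw [Function.update_of_ne his]
  intro i j h
  by_cases hjs : j = s
  · subst hjs
    rw [Function.update_self]
    refine ⟨g, mem_insert_self _ _, ?_⟩
    have h1 : insert g (Y j) \ {g} = Y j := by
      rw [sdiff_singleton_eq_erase, erase_insert hg]
    rw [h1]
    exact (hs i).trans (hup i)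
  · rw [Function.update_of_ne hjs] at h ⊢
    obtain ⟨g', hg', hle⟩ := hE i j ((hup i).trans_lt h)
    exact ⟨g', hg', hle.trans (hup i)⟩

/-- An EF1 allocation of a part of the goods can be completed; nobody becomes worse off. -/
theorem complete (hn : 0 < n) {v : Fin n → Finset M → ℝ}
    (hm : ∀ i S T, S ⊆ T → v i S ≤ v i T) {X : Fin n → Finset M}
    (hX : ∀ i j, i ≠ j → Disjoint (X i) (X j)) (hE : EF1 v X) :
    ∃ A : Fin n → Finset M, IsAlloc A ∧ EF1 v A ∧ ∀ k, v k (X k) ≤ v k (A k) := by
  classical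
  let T : Finset (Fin n → Finset M) := univ.filter
    (fun Y => (∀ i j, i ≠ j → Disjoint (Y i) (Y j)) ∧ EF1 v Y ∧ ∀ k, v k (X k) ≤ v k (Y k))
  have hne : T.Nonempty := ⟨X, by simp only [T, mem_filter, mem_univ, true_and]; exact
    ⟨hX, hE, fun _ => le_rfl⟩⟩
  obtain ⟨Y, hY, hmax⟩ := T.exists_max_image (fun Y => ∑ k, (Y k).card) hne
  obtain ⟨hd, hEY, hge⟩ := (mem_filter.mp hY).2
  obtain ⟨τ, hτ, s, hs⟩ := exists_source hn v Y
  set Z : Fin n → Finset M := fun k => Y (τ k) with hZ
  have hEZ : EF1 v Z := ef1_perm hEY hτ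
  have hdZ : ∀ i j, i ≠ j → Disjoint (Z i) (Z j) := fun i j hij =>
    hd _ _ (fun h => hij (τ.injective h))
  have hgeZ : ∀ k, v k (X k) ≤ v k (Z k) := fun k => (hge k).trans (hτ k)
  refine ⟨Z, ⟨hdZ, ?_⟩, hEZ, hgeZ⟩
  by_contra hcon
  push Not at hcon
  obtain ⟨g, hg⟩ := hcon
  have hmem : Function.update Z s (insert g (Z s)) ∈ T := by
    simp only [T, mem_filter, mem_univ, true_and]
    refine ⟨?_, ef1_add hm hEZ hs (hg s), ?_⟩
    · intro i j hij
      by_cases his : i = s
      · subst his
        rw [Function.update_self, Function.update_of_ne (Ne.symm hij), disjoint_insert_left]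
        exact ⟨hg j, hdZ i j hij⟩
      · by_cases hjs : j = s
        · subst hjs
          rw [Function.update_self, Function.update_of_ne hij, disjoint_insert_right]
          exact ⟨hg i, hdZ i j hij⟩
        · rw [Function.update_of_ne his, Function.update_of_ne hjs]
          exact hdZ i j hij
    · intro k
      by_cases hks : k = s
      · subst hks
        rw [Function.update_self]
        exact (hgeZ k).trans (hm _ _ _ (subset_insert _ _))
      · rw [Function.update_of_ne hks]
        exact hgeZ k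
  have h1 := hmax _ hmem
  have h2 : ∑ k, (Z k).card = ∑ k, (Y k).card := Equiv.sum_comp τ (fun k => (Y k).card)
  have h3 : ∑ k, (Z k).card < ∑ k, (Function.update Z s (insert g (Z s)) k).card := by
    apply Finset.sum_lt_sum
    · intro k _
      by_cases hks : k = s
      · subst hks
        rw [Function.update_self]
        exact card_le_card (subset_insert _ _)
      · rw [Function.update_of_ne hks]
    · exact ⟨s, mem_univ _, by rw [Function.update_self, card_insert_of_notMem (hg s)]; omega⟩
  omega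

omit [Fintype M] in
theorem ef1_empty (v : Fin n → Finset M → ℝ) : EF1 v (fun _ => (∅ : Finset M)) := by
  intro i j h
  exact absurd h (lt_irrefl _)

/-- For every allocation `B` there is an EF1 allocation in which some agent has at least her value
in `B`. -/
theorem retain (hn : 0 < n) {v : Fin n → Finset M → ℝ}
    (hm : ∀ i S T, S ⊆ T → v i S ≤ v i T) {B : Fin n → Finset M}
    (hB : ∀ i j, i ≠ j → Disjoint (B i) (B j)) :
    ∃ A : Fin n → Finset M, IsAlloc A ∧ EF1 v A ∧ ∃ j, v j (B j) ≤ v j (A j) := by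
  classical
  let T : Finset ((Fin n → Finset M) × Equiv.Perm (Fin n)) := univ.filter
    (fun Z => (∀ j, Z.1 j ⊆ B j) ∧ EF1 v (fun k => Z.1 (Z.2 k)))
  have hne : T.Nonempty := ⟨(fun _ => ∅, 1), by
    simp only [T, mem_filter, mem_univ, true_and]
    exact ⟨fun j => empty_subset _, ef1_empty v⟩⟩
  obtain ⟨⟨Z, σ⟩, hZ, hmax⟩ := T.exists_max_image (fun Z => ∑ k, (Z.1 k).card) hne
  obtain ⟨hsub, hE⟩ := (mem_filter.mp hZ).2
  simp only at hsub hE hmax
  obtain ⟨τ, hτ, s, hs⟩ := exists_source hn v (fun k => Z (σ k))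
  have hE2 : EF1 v (fun k => Z (σ (τ k))) := ef1_perm hE hτ
  have hdis : ∀ i j, i ≠ j → Disjoint (Z (σ (τ i))) (Z (σ (τ j))) := fun i j hij =>
    (hB _ _ (fun h => hij (τ.injective (σ.injective h)))).mono (hsub _) (hsub _)
  set j := σ (τ s) with hj
  have hfull : Z j = B j := by
    by_contra hcon
    obtain ⟨g, hgB, hgZ⟩ := exists_of_ssubset ((hsub j).ssubset_of_ne hcon)
    have hupd : (fun k => Function.update Z j (insert g (Z j)) (σ (τ k))) =
        Function.update (fun k => Z (σ (τ k))) s (insert g (Z (σ (τ s)))) := by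
      funext k
      by_cases hks : k = s
      · subst hks
        rw [Function.update_self, ← hj, Function.update_self]
      · have h1 : σ (τ k) ≠ j := fun h => hks (τ.injective (σ.injective h))
        rw [Function.update_of_ne h1, Function.update_of_ne hks]
    have hmem : (Function.update Z j (insert g (Z j)), (σ * τ : Equiv.Perm (Fin n))) ∈ T := by
      simp only [T, mem_filter, mem_univ, true_and]
      constructor
      · intro i
        by_cases hij : i = j
        · rw [hij, Function.update_self]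
          exact insert_subset hgB (hsub j)
        · rw [Function.update_of_ne hij]
          exact hsub i
      · show EF1 v (fun k => Function.update Z j (insert g (Z j)) (σ (τ k)))
        rw [hupd]
        exact ef1_add hm hE2 hs hgZ
    have h1 := hmax _ hmem
    have h3 : ∑ k, (Z k).card < ∑ k, (Function.update Z j (insert g (Z j)) k).card := by
      apply Finset.sum_lt_sum
      · intro k _
        by_cases hks : k = j
        · rw [hks, Function.update_self]
          exact card_le_card (subset_insert _ _)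
        · rw [Function.update_of_ne hks]
      · exact ⟨j, mem_univ _, by rw [Function.update_self, card_insert_of_notMem hgZ]; omega⟩
    simp only at h1
    omega
  obtain ⟨A, hA, hEA, hge⟩ := complete hn hm hdis hE2
  refine ⟨A, hA, hEA, j, ?_⟩
  have h1 := hs j
  rw [hfull] at h1
  exact h1.trans (hge j)

theorem card_alloc {A : Fin n → Finset M} (hA : IsAlloc A) : ∑ k, (A k).card = Fintype.card M := by
  rw [← card_univ, ← card_biUnion (fun i _ j _ hij => hA.1 i j hij)]
  congr 1
  ext g
  simp only [mem_biUnion, mem_univ, true_and, iff_true]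
  exact hA.2 g

/-- Instances in which all agents except at most one (`z`) have spread at most `r ^ 2` admit an
allocation which is EF1 and `1 / r`-PO. -/
theorem spread {v : Fin n → Finset M → ℝ} (z : Fin n) (h0 : ∀ i, v i ∅ = 0)
    (hm : ∀ i S T, S ⊆ T → v i S ≤ v i T) {r : ℝ} (hr1 : 1 ≤ r)
    (hρ : ∀ i, i ≠ z → ∀ g, v i univ ≤ r ^ 2 * v i {g}) :
    ∃ A : Fin n → Finset M, IsAlloc A ∧ EF1 v A ∧ IsPO (1 / r) v A := by
  classical
  have hn : 0 < n := z.pos
  have hr : 0 < r := by linarith
  -- an EF1 allocation which is best for `z`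
  let T : Finset (Fin n → Finset M) := univ.filter (fun A => IsAlloc A ∧ EF1 v A)
  have hne : T.Nonempty := by
    obtain ⟨A, hA, hE, -⟩ := complete hn hm (X := fun _ => ∅)
      (fun _ _ _ => disjoint_empty_left _) (ef1_empty v)
    exact ⟨A, mem_filter.mpr ⟨mem_univ _, hA, hE⟩⟩
  obtain ⟨A0, hT0, hbest⟩ := T.exists_max_image (fun A => v z (A z)) hne
  obtain ⟨hA0, hE0⟩ := (mem_filter.mp hT0).2
  by_cases hP0 : IsPO (1 / r) v A0
  · exact ⟨A0, hA0, hE0, hP0⟩
  unfold IsPO at hP0
  push Not at hP0
  obtain ⟨B0, hB0, hdom0⟩ := hP0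
  obtain ⟨A1, hA1, hE1, j, hj⟩ := retain hn hm hB0.1
  by_cases hP1 : IsPO (1 / r) v A1
  · exact ⟨A1, hA1, hE1, hP1⟩
  exfalso
  unfold IsPO at hP1
  push Not at hP1
  obtain ⟨B1, hB1, hdom1⟩ := hP1
  have hnn : ∀ i S, 0 ≤ v i S := fun i S => by
    rw [← h0 i]; exact hm i _ _ (empty_subset S)
  have hd0 : ∀ i, r * v i (A0 i) < v i (B0 i) := by
    intro i
    have h1 := hdom0 i
    rw [one_div, ← div_eq_inv_mul, lt_div_iff₀ hr] at h1
    linarith
  have hjz : j ≠ z := by
    rintro rfl
    have h1 : v j (A1 j) ≤ v j (A0 j) := hbest A1 (mem_filter.mpr ⟨mem_univ _, hA1, hE1⟩)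
    have h2 : v j (A0 j) ≤ r * v j (A0 j) := le_mul_of_one_le_left (hnn j _) hr1
    linarith [hd0 j]
  have hd1 : r * v j (A1 j) < v j (B1 j) := by
    have h1 := hdom1 j
    rw [one_div, ← div_eq_inv_mul, lt_div_iff₀ hr] at h1
    linarith
  have hpos : ∀ i, 0 < v i (B0 i) := fun i =>
    (mul_nonneg hr.le (hnn i _)).trans_lt (hd0 i)
  have hchain : r ^ 2 * v j (A0 j) < v j univ := by
    have h1 := hm j _ _ (subset_univ (B1 j))
    have h2 : r * (r * v j (A0 j)) ≤ r * v j (A1 j) :=
      mul_le_mul_of_nonneg_left ((hd0 j).le.trans hj) hr.le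
    nlinarith
  rcases (A0 j).eq_empty_or_nonempty with he | ⟨g, hg⟩
  · -- every other bundle of `A0` has at most one good
    have hsing : ∀ h, 0 < v j {h} := by
      intro h
      have h1 := hρ j hjz h
      have h2 := (hpos j).trans_le (hm j _ _ (subset_univ (B0 j)))
      by_contra hcon
      have h3 : v j {h} ≤ 0 := not_lt.mp hcon
      nlinarith [sq_nonneg r]
    have hle1 : ∀ k, (A0 k).card ≤ 1 := by
      intro k
      by_contra hcon
      have hcon : 1 < (A0 k).card := not_le.mp hcon
      obtain ⟨a, ha, b, hb, hab⟩ := one_lt_card.mp hcon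
      have hlt : v j (A0 j) < v j (A0 k) := by
        rw [he, h0]
        exact (hsing a).trans_le (hm j _ _ (singleton_subset_iff.mpr ha))
      obtain ⟨c, hc, hle⟩ := hE0 j k hlt
      rw [he, h0] at hle
      have : ∃ d ∈ A0 k, d ≠ c := by
        by_cases hac : a = c
        · exact ⟨b, hb, fun h => hab (hac.trans h.symm)⟩
        · exact ⟨a, ha, hac⟩
      obtain ⟨d, hd, hdc⟩ := this
      have h4 : v j {d} ≤ v j (A0 k \ {c}) := by
        apply hm
        intro x hx
        rw [mem_singleton] at hx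
        subst hx
        rw [mem_sdiff, mem_singleton]
        exact ⟨hd, hdc⟩
      linarith [hsing d]
    have hc1 : ∑ k, (A0 k).card < n := by
      calc ∑ k, (A0 k).card < ∑ _k : Fin n, 1 := by
            apply Finset.sum_lt_sum (fun k _ => hle1 k)
            exact ⟨j, mem_univ _, by rw [he]; simp⟩
        _ = n := by simp
    have hc2 : n ≤ ∑ k, (B0 k).card := by
      calc n = ∑ _k : Fin n, 1 := by simp
        _ ≤ ∑ k, (B0 k).card := by
            apply Finset.sum_le_sum
            intro k _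
            rw [Nat.one_le_iff_ne_zero, Finset.card_ne_zero]
            by_contra hcon
            rw [not_nonempty_iff_eq_empty] at hcon
            have := hpos k
            rw [hcon, h0] at this
            exact lt_irrefl _ this
    rw [card_alloc hA0] at hc1
    rw [card_alloc hB0] at hc2
    omega
  · have h1 := hρ j hjz g
    have h2 := hm j {g} (A0 j) (singleton_subset_iff.mpr hg)
    have h3 : r ^ 2 * v j {g} ≤ r ^ 2 * v j (A0 j) := mul_le_mul_of_nonneg_left h2 (sq_nonneg r)
    linarith

theorem good_of_spread {ρ : ℝ} (hρ : 1 ≤ ρ) : Good n ρ (1 / √ρ) := by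
  intro M _ _ v z hv hs
  refine spread z (fun i => (hv i).empty) (fun i => (hv i).mono) (Real.one_le_sqrt.mpr hρ) ?_
  intro i hi g
  rw [Real.sq_sqrt (by linarith)]
  exact hs i hi g

end Pool.Agent.W2helper86.FD
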