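import Pool.Agent.W2helper86.FD.Inst
import Pool.Agent.W2helper86.FD.Pos

/-!
# Fair division: disjoint unions of hard instances
-/

set_option autoImplicit false

open Finset

namespace Pool.Agent.W2helper86.FD

theorem Hard.transport {s α : ℝ} {I I' : Type} (f : I ≃ I') (h : Hard s α I) : Hard s α I' := by
  obtain ⟨M, hM, hD, v, h0, hm, h1, hs, hE⟩ := h
  refine ⟨M, hM, hD, fun i => v (f.symm i), fun i => h0 _, fun i => hm _, fun i => h1 _,
    fun i => hs _, ?_⟩
  intro A hA hA2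
  obtain ⟨B, hB, hdom⟩ := hE (fun i => A (f i)) (fun i j hij => hA _ _ (fun h => hij (f.injective h)))
    (fun i j hj => by
      have := hA2 (f i) (f j) hj
      simpa using this)
  refine ⟨fun i => B (f.symm i), ⟨fun i j hij => hB.1 _ _ (fun h => hij (f.symm.injective h)),
    fun g => ?_⟩, fun i => ?_⟩
  · obtain ⟨i, hi⟩ := hB.2 g
    exact ⟨f i, by simpa using hi⟩
  · have := hdom (f.symm i)
    simpa using this

/-- the valuation on the disjoint union: only the goods of one side matter -/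
noncomputable def lift {M M' : Type} [DecidableEq M] [DecidableEq M'] (u : Finset M → ℝ)
    (π : Finset M' → Finset M) (S : Finset M') : ℝ :=
  if S = ∅ then 0 else max 1 (u (π S))

theorem lift_props {M M' : Type} [DecidableEq M] [DecidableEq M'] {u : Finset M → ℝ}
    {π : Finset M' → Finset M} {s : ℝ} (hs1 : 1 ≤ s ^ 2)
    (hm : ∀ S T, S ⊆ T → u S ≤ u T) (hs : ∀ S, u S ≤ s ^ 2)
    (hπm : ∀ S T, S ⊆ T → π S ⊆ π T) :
    lift u π ∅ = 0 ∧ (∀ S T, S ⊆ T → lift u π S ≤ lift u π T) ∧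
      (∀ S, S.Nonempty → 1 ≤ lift u π S) ∧ (∀ S, lift u π S ≤ s ^ 2) := by
  refine ⟨by simp [lift], ?_, ?_, ?_⟩
  · intro S T hST
    unfold lift
    by_cases hT : T = ∅
    · subst hT
      rw [subset_empty.mp hST]
    · rw [if_neg hT]
      by_cases hS : S = ∅
      · rw [if_pos hS]
        exact zero_le_one.trans (le_max_left _ _)
      · rw [if_neg hS]
        exact max_le_max le_rfl (hm _ _ (hπm _ _ hST))
  · intro S hS
    unfold lift
    rw [if_neg hS.ne_empty]
    exact le_max_left _ _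
  · intro S
    unfold lift
    split_ifs
    · positivity
    · exact max_le hs1 (hs _)

/-- One side of the union. -/
theorem side {M M' I K : Type} [DecidableEq M] [DecidableEq M'] {u : I → Finset M → ℝ}
    (h0 : ∀ i, u i ∅ = 0) (hm : ∀ i S T, S ⊆ T → u i S ≤ u i T)
    {π : Finset M' → Finset M} {ι : M → M'} (hπ0 : π ∅ = ∅)
    (hmem : ∀ S g, g ∈ π S ↔ ι g ∈ S) (hι : Function.Injective ι)
    {κ : I → K} {A : K → Finset M'} {w : K → Finset M' → ℝ}
    (hw : ∀ i S, w (κ i) S = lift (u i) π S)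
    (hE : ∀ i j, (A j).Nonempty → ∃ g ∈ A j, w i (A j \ {g}) ≤ max (w i (A i)) 1) :
    (∀ i j, (π (A (κ j))).Nonempty → ∃ g ∈ π (A (κ j)), u i (π (A (κ j)) \ {g}) ≤
      max (u i (π (A (κ i)))) 1) ∧
    ∀ i, max (w (κ i) (A (κ i))) 1 = max (u i (π (A (κ i)))) 1 := by
  have hmax : ∀ i S, max (lift (u i) π S) 1 = max (u i (π S)) 1 := by
    intro i S
    unfold lift
    by_cases hS : S = ∅
    · rw [if_pos hS, hS, hπ0, h0]
    · rw [if_neg hS, max_comm 1, max_assoc, max_self]
  have hle : ∀ i S, u i (π S) ≤ lift (u i) π S := by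
    intro i S
    unfold lift
    by_cases hS : S = ∅
    · rw [if_pos hS, hS, hπ0, h0]
    · rw [if_neg hS]
      exact le_max_right _ _
  refine ⟨fun i j hj => ?_, fun i => by rw [hw, hmax]⟩
  obtain ⟨g1, hg1⟩ := hj
  obtain ⟨g, hg, hgle⟩ := hE (κ i) (κ j) ⟨ι g1, (hmem _ _).mp hg1⟩
  rw [hw, hw, hmax] at hgle
  by_cases hex : ∃ g0, ι g0 = g
  · obtain ⟨g0, rfl⟩ := hex
    refine ⟨g0, (hmem _ _).mpr hg, ?_⟩
    have h1 : π (A (κ j) \ {ι g0}) = π (A (κ j)) \ {g0} := by
      ext x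
      rw [hmem, mem_sdiff, mem_sdiff, hmem, mem_singleton, mem_singleton, hι.eq_iff]
    rw [← h1]
    exact (hle _ _).trans hgle
  · refine ⟨g1, hg1, ?_⟩
    have h1 : π (A (κ j)) \ {g1} ⊆ π (A (κ j) \ {g}) := by
      intro x hx
      rw [mem_sdiff] at hx
      rw [hmem, mem_sdiff, mem_singleton]
      exact ⟨(hmem _ _).mp hx.1, fun h => hex ⟨x, h⟩⟩
    exact ((hm _ _ _ h1).trans (hle _ _)).trans hgle

theorem Hard.sum {s α : ℝ} (hs1 : 1 ≤ s ^ 2) (hα : 0 < α) {I J : Type} (hI : Hard s α I)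
    (hJ : Hard s α J) : Hard s α (I ⊕ J) := by
  classical
  obtain ⟨M₁, hM₁, hD₁, v₁, a0, am, a1, as, aE⟩ := hI
  obtain ⟨M₂, hM₂, hD₂, v₂, b0, bm, b1, bs, bE⟩ := hJ
  let w : I ⊕ J → Finset (M₁ ⊕ M₂) → ℝ := fun k S => match k with
    | Sum.inl i => lift (v₁ i) Finset.toLeft S
    | Sum.inr j => lift (v₂ j) Finset.toRight S
  have hL : ∀ S T : Finset (M₁ ⊕ M₂), S ⊆ T → S.toLeft ⊆ T.toLeft := fun S T h x hx => by
    rw [mem_toLeft] at hx ⊢; exact h hx
  have hR : ∀ S T : Finset (M₁ ⊕ M₂), S ⊆ T → S.toRight ⊆ T.toRight := fun S T h x hx => by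
    rw [mem_toRight] at hx ⊢; exact h hx
  have pL := fun i => lift_props (u := v₁ i) (π := Finset.toLeft (β := M₂)) hs1 (am i) (as i) hL
  have pR := fun j => lift_props (u := v₂ j) (π := Finset.toRight (α := M₁)) hs1 (bm j) (bs j) hR
  refine ⟨M₁ ⊕ M₂, inferInstance, inferInstance, w, ?_, ?_, ?_, ?_, ?_⟩
  · rintro (i | j)
    · exact (pL i).1
    · exact (pR j).1
  · rintro (i | j)
    · exact (pL i).2.1
    · exact (pR j).2.1
  · rintro (i | j)
    · exact (pL i).2.2.1
    · exact (pR j).2.2.1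
  · rintro (i | j)
    · exact (pL i).2.2.2
    · exact (pR j).2.2.2
  · intro A hA hE
    obtain ⟨e1, m1⟩ := side (u := v₁) a0 am (π := Finset.toLeft (β := M₂)) (ι := Sum.inl)
      (by rfl) (fun S g => mem_toLeft) Sum.inl_injective (κ := Sum.inl) (A := A) (w := w)
      (fun _ _ => rfl) hE
    obtain ⟨e2, m2⟩ := side (u := v₂) b0 bm (π := Finset.toRight (α := M₁)) (ι := Sum.inr)
      (by rfl) (fun S g => mem_toRight) Sum.inr_injective (κ := Sum.inr) (A := A) (w := w)
      (fun _ _ => rfl) hE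
    obtain ⟨B₁, hB₁, d1⟩ := aE (fun i => (A (Sum.inl i)).toLeft) (fun i j hij => by
      rw [disjoint_left]
      intro x hx hy
      rw [mem_toLeft] at hx hy
      exact (disjoint_left.mp (hA _ _ (fun h => hij (Sum.inl_injective h)))) hx hy) e1
    obtain ⟨B₂, hB₂, d2⟩ := bE (fun i => (A (Sum.inr i)).toRight) (fun i j hij => by
      rw [disjoint_left]
      intro x hx hy
      rw [mem_toRight] at hx hy
      exact (disjoint_left.mp (hA _ _ (fun h => hij (Sum.inr_injective h)))) hx hy) e2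
    let B : I ⊕ J → Finset (M₁ ⊕ M₂) := fun k => match k with
      | Sum.inl i => (B₁ i).disjSum ∅
      | Sum.inr j => (∅ : Finset M₁).disjSum (B₂ j)
    refine ⟨B, ⟨?_, ?_⟩, ?_⟩
    · rintro (i | i) (j | j) hij
      · rw [disjoint_left]
        rintro (x | x) hx hy
        · simp only [B, inl_mem_disjSum] at hx hy
          exact disjoint_left.mp (hB₁.1 i j (fun h => hij (congrArg _ h))) hx hy
        · simp [B] at hx
      · rw [disjoint_left]
        rintro (x | x) hx hy
        · simp [B] at hy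
        · simp [B] at hx
      · rw [disjoint_left]
        rintro (x | x) hx hy
        · simp [B] at hx
        · simp [B] at hy
      · rw [disjoint_left]
        rintro (x | x) hx hy
        · simp [B] at hx
        · simp only [B, inr_mem_disjSum] at hx hy
          exact disjoint_left.mp (hB₂.1 i j (fun h => hij (congrArg _ h))) hx hy
    · rintro (x | x)
      · obtain ⟨i, hi⟩ := hB₁.2 x
        exact ⟨Sum.inl i, by simpa [B] using hi⟩
      · obtain ⟨i, hi⟩ := hB₂.2 x
        exact ⟨Sum.inr i, by simpa [B] using hi⟩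
    · have hle : ∀ {M : Type} [DecidableEq M] {u : Finset M → ℝ} {π : Finset (M₁ ⊕ M₂) → Finset M}
          (_ : u ∅ = 0) (_ : π ∅ = ∅) (S : Finset (M₁ ⊕ M₂)), u (π S) ≤ lift u π S := by
        intro M _ u π h0 hπ S
        unfold lift
        by_cases hS : S = ∅
        · rw [if_pos hS, hS, hπ, h0]
        · rw [if_neg hS]
          exact le_max_right _ _
      rintro (i | j)
      · rw [m1 i]
        refine (d1 i).trans_le (mul_le_mul_of_nonneg_left ?_ hα.le)
        have h1 := hle (u := v₁ i) (π := Finset.toLeft) (a0 i) (by rfl) (B (Sum.inl i))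
        have h2 : (B (Sum.inl i)).toLeft = B₁ i := by
          ext x
          rw [mem_toLeft]
          exact inl_mem_disjSum
        rw [h2] at h1
        exact h1
      · rw [m2 j]
        refine (d2 j).trans_le (mul_le_mul_of_nonneg_left ?_ hα.le)
        have h1 := hle (u := v₂ j) (π := Finset.toRight) (b0 j) (by rfl) (B (Sum.inr j))
        have h2 : (B (Sum.inr j)).toRight = B₂ j := by
          ext x
          rw [mem_toRight]
          exact inr_mem_disjSum
        rw [h2] at h1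
        exact h1

theorem hard_all {s α : ℝ} (hs : 1 < s) (hα : 1 < α * s) (n : ℕ) (hn : 2 ≤ n) :
    Hard s α (Fin n) := by
  have hα0 : 0 < α := by
    by_contra h
    have : α * s ≤ 0 := mul_nonpos_of_nonpos_of_nonneg (not_lt.mp h) (by linarith)
    linarith
  have hs1 : 1 ≤ s ^ 2 := by nlinarith
  induction n using Nat.strong_induction_on with
  | _ n ih =>
    rcases Nat.lt_or_ge n 4 with h | h
    · interval_cases n
      · exact hard2 hs hα
      · exact hard3 hs hα
    · have h1 := ih (n - 2) (by omega) (by omega)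
      have h2 := (h1.sum hs1 hα0 (hard2 hs hα)).transport finSumFinEquiv
      have h3 : n - 2 + 2 = n := by omega
      rwa [h3] at h2

theorem exists_hard {n : ℕ} (hn : 2 ≤ n) {ρ α : ℝ} (h1 : 1 < ρ) (h2 : ρ ≤ 2)
    (hα : 1 / √ρ < α) :
    ∃ (M : Type) (_ : Fintype M) (_ : DecidableEq M) (v : Fin n → Finset M → ℝ),
      (∀ i, IsValuation (v i)) ∧ (∀ i g, v i univ ≤ ρ * v i {g}) ∧
      ∀ A : Fin n → Finset M, IsAlloc A → EF1 v A → ¬ IsPO α v A := by
  have hs0 : 0 < √ρ := Real.sqrt_pos.mpr (by linarith)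
  have hs : 1 < √ρ := by rw [Real.lt_sqrt (by norm_num)]; linarith
  have hsq : √ρ ^ 2 = ρ := Real.sq_sqrt (by linarith)
  have hαs : 1 < α * √ρ := by rwa [div_lt_iff₀ hs0] at hα
  obtain ⟨M, hM, hD, v, a0, am, a1, as, aE⟩ := hard_all hs hαs n hn
  rw [hsq] at as
  have hnn : ∀ i S, 0 ≤ v i S := fun i S => by
    rw [← a0 i]; exact am i _ _ (empty_subset S)
  refine ⟨M, hM, hD, v, (fun i => ⟨a0 i, am i, fun S T => by
      rcases S.eq_empty_or_nonempty with h | h
      · rw [h, empty_union]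
        linarith [hnn i (∅ : Finset M)]
      rcases T.eq_empty_or_nonempty with h' | h'
      · rw [h', union_empty]
        linarith [hnn i (∅ : Finset M)]
      linarith [as i (S ∪ T), a1 i S h, a1 i T h']⟩), (fun i g => by
      have h3 := a1 i {g} (singleton_nonempty g)
      have h4 := as i univ
      nlinarith), ?_⟩
  intro A hA hE hP
  obtain ⟨B, hB, hdom⟩ := aE A hA.1 (fun i j hj => by
    by_cases hlt : v i (A i) < v i (A j)
    · obtain ⟨g, hg, hle⟩ := hE i j hlt
      exact ⟨g, hg, hle.trans (le_max_left _ _)⟩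
    · obtain ⟨g, hg⟩ := hj
      exact ⟨g, hg, ((am i _ _ sdiff_subset).trans (not_lt.mp hlt)).trans (le_max_left _ _)⟩)
  exact hP ⟨B, hB, fun i => (le_max_left _ _).trans_lt (hdom i)⟩

theorem not_good {n : ℕ} (hn : 2 ≤ n) {ρ α : ℝ} (h1 : 1 < ρ) (h2 : ρ ≤ 2) (hα : 1 / √ρ < α) :
    ¬ Good n ρ α := by
  intro hG
  obtain ⟨M, hM, hD, v, hv, hs, hno⟩ := exists_hard hn h1 h2 hα
  obtain ⟨A, hA, hE, hP⟩ := hG M v ⟨0, by omega⟩ hv (fun i _ g => hs i g)
  exact hno A hA hE hP

end Pool.Agent.W2helper86.FD
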